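import Pool.Agent.helper17.HH.SpecB

/-!
# MP_07c750, project HH, row BOU: two blocks and one good parameter

For every `w` and every block `I` of `B w` the fixed-set lemma (BFX) gives a dense part of `A w`; the rows BPW, BPG give two far blocks `I, I'`, BCS one `w0`, and Ruzsa's triangle inequality bounds the mixed difference sets.
-/

open scoped Pointwise
open MeasureTheory Set

set_option autoImplicit false

namespace Pool.Agent.HH

/-- translations do not change the size of a difference set -/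
lemma BOU_tr (F G : Finset ℤ) (b c : ℤ) :
    ((F.image fun x => x - b) - (G.image fun x => x - c)).card = (F - G).card := by
  have h : ((F.image fun x => x - b) - (G.image fun x => x - c)) = (F - G).image fun x => x - (b - c) := by
    ext z
    simp only [Finset.mem_sub, Finset.mem_image]
    constructor
    · rintro ⟨_, ⟨x, hx, rfl⟩, _, ⟨y, hy, rfl⟩, rfl⟩
      exact ⟨x - y, ⟨x, hx, y, hy, rfl⟩, by ring⟩
    · rintro ⟨_, ⟨x, hx, y, hy, rfl⟩, rfl⟩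
      exact ⟨x - b, ⟨x, hx, rfl⟩, y - c, ⟨y, hy, rfl⟩, by ring⟩
  rw [h, Finset.card_image_of_injective]
  intro x y hxy
  simpa using hxy

/-- a map that is at most five to one -/
lemma BOU_five (A : Finset ℤ) (f : ℤ → ℤ) (h : ∀ k, (A.filter fun a => f a = k).card ≤ 5) (A' : Finset ℤ) (hA : A' ⊆ A) :
    (A'.card : ℝ) / 5 ≤ ((A'.image f).card : ℝ) := by
  have h1 : A'.card ≤ 5 * (A'.image f).card := by
    apply Finset.card_le_mul_card_image
    intro k _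
    exact le_trans (Finset.card_le_card (Finset.filter_subset_filter _ hA)) (h k)
  have h2 : (A'.card : ℝ) ≤ 5 * ((A'.image f).card : ℝ) := by exact_mod_cast h1
  linarith

/-- one parameter and one block -/
lemma BOU_one (h1 : BV3_stmt) (h2 : BFX_stmt) {α a0 Vb : ℝ} (hα : 0 < α) (hα1 : α ≤ 1) (ha0 : 0 < a0) {A V : Finset ℤ} {R : Finset (ℤ × ℤ)} {f : ℤ → ℤ}
    (hA : a0 ≤ A.card) (hV : (V.card : ℝ) ≤ Vb) (hR : R ⊆ A ×ˢ A) (hR2 : α * (A.card : ℝ) ^ 2 ≤ R.card)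
    (h5 : ∀ k, (A.filter fun a => f a = k).card ≤ 5) (hd : ∀ z ∈ R, f z.1 - f z.2 ∈ V) :
    ((V3 V (muB α a0)).card : ℝ) ≤ vB α a0 Vb ∧
    ∃ A1 : Finset ℤ, A1 ⊆ A ∧ α / 6 * A.card ≤ A1.card ∧ (∃ b : ℤ, ∀ a ∈ A1, f a - b ∈ V3 V (muB α a0)) ∧
      ((A1.image f - A1.image f).card : ℝ) ≤ dB α a0 Vb := by
  have hμ : 0 < muB α a0 := by unfold muB; positivity
  have hAc : (0 : ℝ) < A.card := lt_of_lt_of_le ha0 hA
  have hv : ((V3 V (muB α a0)).card : ℝ) ≤ vB α a0 Vb := by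
    unfold vB
    rw [le_div_iff₀ hμ]
    exact le_trans (h1 V (muB α a0) hμ) (pow_le_pow_left₀ (Nat.cast_nonneg _) hV 3)
  have hne : A.Nonempty := by
    rw [← Finset.card_pos]; exact_mod_cast hAc
  have hμ2 : muB α a0 ≤ α ^ 5 / 102400 * (A.card : ℝ) ^ 2 := by
    unfold muB
    exact mul_le_mul_of_nonneg_left (pow_le_pow_left₀ ha0.le hA 2) (by positivity)
  obtain ⟨A1, hs, hc, hb, hdd⟩ := h2 α (muB α a0) A V R f hα hα1 hμ hne hR hR2 h5 hd hμ2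
  refine ⟨hv, A1, hs, hc, hb, le_trans hdd ?_⟩
  unfold dB
  have e1 : 30 / (α * (A.card : ℝ)) ≤ 30 / (α * a0) :=
    div_le_div_of_nonneg_left (by norm_num) (by positivity) (mul_le_mul_of_nonneg_left hA hα.le)
  have e2 : ((V3 V (muB α a0)).card : ℝ) ^ 2 ≤ vB α a0 Vb ^ 2 := pow_le_pow_left₀ (Nat.cast_nonneg _) hv 2
  exact mul_le_mul e1 e2 (by positivity) (by positivity)

/-- many pairs of far blocks with a large intersection -/
lemma BOU_T (h3 : BPW_stmt) {α θ Mb M1 ϑ : ℝ} {S : Finset ℤ} {X : ℤ → ℝ} {Aw Bw : Finset ℤ} {A1 : ℤ → Finset ℤ} (hα : 0 < α) (hα1 : α ≤ 1) (hθ : 0 < θ) (hMb : 0 < Mb)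
    (hS : (S.card : ℝ) ≤ Mb) (hcl : ∀ I ∈ S, ((S.filter fun I' => |X I' - X I| < ϑ).card : ℝ) ≤ M1) (hM1 : M1 ≤ α ^ 2 * θ ^ 2 / 144 * Mb)
    (hB : Bw ⊆ S) (hB2 : θ * Mb ≤ Bw.card) (hA1 : ∀ I ∈ Bw, A1 I ⊆ Aw ∧ α / 6 * Aw.card ≤ (A1 I).card) :
    α ^ 2 * θ ^ 2 / 144 * ((S ×ˢ S).card : ℝ) ≤
      (((Bw ×ˢ Bw).filter fun z => α ^ 2 / 72 * (Aw.card : ℝ) ≤ ((A1 z.1 ∩ A1 z.2).card : ℝ) ∧ ϑ ≤ |X z.1 - X z.2|).card : ℝ) := by
  classical
  have k1 := h3 (α / 6) Aw Bw A1 (by positivity) (by linarith) hA1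
  have e1 : (α / 6) ^ 2 / 2 = α ^ 2 / 72 := by ring
  rw [e1] at k1
  -- the close pairs
  have k2 : (((Bw ×ˢ Bw).filter fun z => |X z.2 - X z.1| < ϑ).card : ℝ) ≤ Mb * M1 := by
    have s1 : (Bw ×ˢ Bw).filter (fun z => |X z.2 - X z.1| < ϑ) ⊆ S.biUnion fun I => (S.filter fun I' => |X I' - X I| < ϑ).image fun I' => (I, I') := by
      intro z hz
      rw [Finset.mem_filter, Finset.mem_product] at hz
      rw [Finset.mem_biUnion]
      refine ⟨z.1, hB hz.1.1, ?_⟩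
      rw [Finset.mem_image]
      exact ⟨z.2, Finset.mem_filter.2 ⟨hB hz.1.2, hz.2⟩, rfl⟩
    have s2 : (((Bw ×ˢ Bw).filter fun z => |X z.2 - X z.1| < ϑ).card : ℝ) ≤ ∑ I ∈ S, ((S.filter fun I' => |X I' - X I| < ϑ).card : ℝ) := by
      have := le_trans (Finset.card_le_card s1) Finset.card_biUnion_le
      have t : ∑ I ∈ S, ((S.filter fun I' => |X I' - X I| < ϑ).image fun I' => (I, I')).card ≤ ∑ I ∈ S, (S.filter fun I' => |X I' - X I| < ϑ).card :=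
        Finset.sum_le_sum fun I _ => Finset.card_image_le
      exact_mod_cast le_trans this t
    have s3 : ∑ I ∈ S, ((S.filter fun I' => |X I' - X I| < ϑ).card : ℝ) ≤ S.card * M1 := by
      have := Finset.sum_le_sum hcl
      rwa [Finset.sum_const, nsmul_eq_mul] at this
    have hSne : S.Nonempty := by
      have : (0 : ℝ) < Bw.card := lt_of_lt_of_le (by positivity) hB2
      have h : Bw.Nonempty := by rw [← Finset.card_pos]; exact_mod_cast this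
      exact h.mono hB
    obtain ⟨I0, hI0⟩ := hSne
    have hM1' : 0 ≤ M1 := le_trans (Nat.cast_nonneg _) (hcl I0 hI0)
    exact le_trans s2 (le_trans s3 (mul_le_mul_of_nonneg_right hS hM1'))
  have k3 : (((Bw ×ˢ Bw).filter fun z => α ^ 2 / 72 * (Aw.card : ℝ) ≤ ((A1 z.1 ∩ A1 z.2).card : ℝ)).card : ℝ) ≤
      (((Bw ×ˢ Bw).filter fun z => α ^ 2 / 72 * (Aw.card : ℝ) ≤ ((A1 z.1 ∩ A1 z.2).card : ℝ) ∧ ϑ ≤ |X z.1 - X z.2|).card : ℝ) +
      (((Bw ×ˢ Bw).filter fun z => |X z.2 - X z.1| < ϑ).card : ℝ) := by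
    have s1 : ((Bw ×ˢ Bw).filter fun z => α ^ 2 / 72 * (Aw.card : ℝ) ≤ ((A1 z.1 ∩ A1 z.2).card : ℝ)) ⊆
        ((Bw ×ˢ Bw).filter fun z => α ^ 2 / 72 * (Aw.card : ℝ) ≤ ((A1 z.1 ∩ A1 z.2).card : ℝ) ∧ ϑ ≤ |X z.1 - X z.2|) ∪
        ((Bw ×ˢ Bw).filter fun z => |X z.2 - X z.1| < ϑ) := by
      intro z hz
      rw [Finset.mem_filter] at hz
      rw [Finset.mem_union, Finset.mem_filter, Finset.mem_filter]
      rcases le_or_gt ϑ |X z.1 - X z.2| with h | h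
      · exact Or.inl ⟨hz.1, hz.2, h⟩
      · right
        rw [abs_sub_comm] at h
        exact ⟨hz.1, h⟩
    have := le_trans (Finset.card_le_card s1) (Finset.card_union_le _ _)
    exact_mod_cast this
  have k4 : α ^ 2 / 72 * (θ * Mb) ^ 2 ≤ α ^ 2 / 72 * (Bw.card : ℝ) ^ 2 :=
    mul_le_mul_of_nonneg_left (pow_le_pow_left₀ (by positivity) hB2 2) (by positivity)
  have k5 : Mb * M1 ≤ Mb * (α ^ 2 * θ ^ 2 / 144 * Mb) := mul_le_mul_of_nonneg_left hM1 hMb.le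
  have k6 : ((S ×ˢ S).card : ℝ) ≤ Mb ^ 2 := by
    rw [Finset.card_product, Nat.cast_mul, ← sq]
    exact pow_le_pow_left₀ (Nat.cast_nonneg _) hS 2
  have k7 : α ^ 2 * θ ^ 2 / 144 * ((S ×ˢ S).card : ℝ) ≤ α ^ 2 * θ ^ 2 / 144 * Mb ^ 2 := mul_le_mul_of_nonneg_left k6 (by positivity)
  have k8 : α ^ 2 / 72 * (θ * Mb) ^ 2 = α ^ 2 * θ ^ 2 / 144 * Mb ^ 2 + Mb * (α ^ 2 * θ ^ 2 / 144 * Mb) := by ring
  linarith

/-- Ruzsa's triangle inequality -/
lemma BOU_rz {D0 c : ℝ} (hc : 0 < c) {P Q P1 Q1 : Finset ℤ} (hP : P ⊆ P1) (hQ : Q ⊆ Q1) (hP1 : ((P1 - P1).card : ℝ) ≤ D0) (hQ1 : ((Q1 - Q1).card : ℝ) ≤ D0)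
    (h : c ≤ ((P ∩ Q).card : ℝ)) : ((P - Q).card : ℝ) ≤ D0 ^ 2 / c := by
  have r := Finset.ruzsa_triangle_inequality_sub_sub_sub P (P ∩ Q) Q
  have r1 : (P - P ∩ Q).card ≤ (P1 - P1).card := Finset.card_le_card (Finset.sub_subset_sub hP (Finset.inter_subset_left.trans hP))
  have r2 : (Q - P ∩ Q).card ≤ (Q1 - Q1).card := Finset.card_le_card (Finset.sub_subset_sub hQ (Finset.inter_subset_right.trans hQ))
  have r3 : ((P - P ∩ Q).card : ℝ) ≤ D0 := le_trans (by exact_mod_cast r1) hP1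
  have r4 : ((Q - P ∩ Q).card : ℝ) ≤ D0 := le_trans (by exact_mod_cast r2) hQ1
  have hD : 0 ≤ D0 := le_trans (Nat.cast_nonneg _) r3
  have r' : ((P - Q).card : ℝ) * ((P ∩ Q).card : ℝ) ≤ ((P - P ∩ Q).card : ℝ) * ((Q - P ∩ Q).card : ℝ) := by exact_mod_cast r
  rw [le_div_iff₀ hc]
  calc ((P - Q).card : ℝ) * c ≤ ((P - Q).card : ℝ) * ((P ∩ Q).card : ℝ) := mul_le_mul_of_nonneg_left h (Nat.cast_nonneg _)
    _ ≤ _ := r'
    _ ≤ D0 * D0 := mul_le_mul r3 r4 (Nat.cast_nonneg _) hD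
    _ = D0 ^ 2 := by ring

theorem BOU_proof (h1 : BV3_stmt) (h2 : BFX_stmt) (h3 : BPW_stmt) (h4 : BPG_stmt) (h5 : BCS_stmt) : BOU_stmt := by
  classical
  intro α θ a0 Vb Mb M1 ϑ S W X V A B R f hα hα1 hθ hθ1 ha0 hMb hS hcl hM1 hV hW hw
  -- the sets of the fixed-set lemma
  have c1 : ∀ w I, ∃ A1 : Finset ℤ, ∃ b : ℤ, w ∈ W → I ∈ B w → (A1 ⊆ A w ∧ α / 6 * (A w).card ≤ A1.card ∧ (∀ a ∈ A1, f w I a - b ∈ V3 (V I) (muB α a0)) ∧
      ((A1.image (f w I) - A1.image (f w I)).card : ℝ) ≤ dB α a0 Vb) := by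
    intro w I
    by_cases hwW : w ∈ W
    · by_cases hI : I ∈ B w
      · obtain ⟨w1, w2, w3, w4⟩ := hw w hwW
        obtain ⟨w5, w6, w7, w8⟩ := w4 I hI
        obtain ⟨-, A1, e1, e2, ⟨b, e3⟩, e4⟩ := BOU_one h1 h2 hα hα1 ha0 w1 (hV I (w2 hI)) w5 w6 w7 w8
        exact ⟨A1, b, fun _ _ => ⟨e1, e2, e3, e4⟩⟩
      · exact ⟨∅, 0, fun _ h => absurd h hI⟩
    · exact ⟨∅, 0, fun h => absurd h hwW⟩
  choose A1 b hAb using c1
  have cv : ∀ I ∈ S, ((V3 (V I) (muB α a0)).card : ℝ) ≤ vB α a0 Vb := by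
    intro I hI
    have hμ : 0 < muB α a0 := by unfold muB; positivity
    unfold vB
    rw [le_div_iff₀ hμ]
    exact le_trans (h1 (V I) (muB α a0) hμ) (pow_le_pow_left₀ (Nat.cast_nonneg _) (hV I hI) 3)
  -- two far blocks
  set T : ℤ → Finset (ℤ × ℤ) := fun w => (B w ×ˢ B w).filter fun z => α ^ 2 / 72 * ((A w).card : ℝ) ≤ ((A1 w z.1 ∩ A1 w z.2).card : ℝ) ∧ ϑ ≤ |X z.1 - X z.2| with hT
  have cT : ∀ w ∈ W, T w ⊆ S ×ˢ S ∧ α ^ 2 * θ ^ 2 / 144 * ((S ×ˢ S).card : ℝ) ≤ ((T w).card : ℝ) := by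
    intro w hwW
    obtain ⟨w1, w2, w3, w4⟩ := hw w hwW
    refine ⟨?_, ?_⟩
    · intro z hz
      rw [hT, Finset.mem_filter, Finset.mem_product] at hz
      rw [Finset.mem_product]
      exact ⟨w2 hz.1.1, w2 hz.1.2⟩
    · exact BOU_T h3 hα hα1 hθ hMb hS hcl hM1 w2 w3 fun I hI => ⟨(hAb w I hwW hI).1, (hAb w I hwW hI).2.1⟩
  have hUne : (S ×ˢ S).Nonempty := by
    obtain ⟨w, hwW⟩ := hW
    obtain ⟨w1, w2, w3, w4⟩ := hw w hwW
    have : (0 : ℝ) < (B w).card := lt_of_lt_of_le (by positivity) w3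
    have h : (B w).Nonempty := by rw [← Finset.card_pos]; exact_mod_cast this
    exact Finset.Nonempty.product (h.mono w2) (h.mono w2)
  obtain ⟨z, hzU, hz⟩ := h4 (α ^ 2 * θ ^ 2 / 144) W (S ×ˢ S) T hUne cT
  set I := z.1 with hI
  set I' := z.2 with hI'
  rw [Finset.mem_product] at hzU
  have hIS : I ∈ S := hzU.1
  have hIS' : I' ∈ S := hzU.2
  set W1 := W.filter fun w => z ∈ T w with hW1
  have hWpos : (0 : ℝ) < W.card := by exact_mod_cast Finset.card_pos.2 hW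
  have hW1pos : (0 : ℝ) < W1.card := lt_of_lt_of_le (by positivity) hz
  have hW1ne : W1.Nonempty := by rw [← Finset.card_pos]; exact_mod_cast hW1pos
  have f1 : ∀ w ∈ W1, w ∈ W ∧ I ∈ B w ∧ I' ∈ B w ∧ α ^ 2 / 72 * ((A w).card : ℝ) ≤ ((A1 w I ∩ A1 w I').card : ℝ) ∧ ϑ ≤ |X I - X I'| := by
    intro w hw1
    rw [hW1, Finset.mem_filter, hT, Finset.mem_filter, Finset.mem_product] at hw1
    exact ⟨hw1.1, hw1.2.1.1, hw1.2.1.2, hw1.2.2.1, hw1.2.2.2⟩
  -- the sets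
  set A' : ℤ → Finset ℤ := fun w => A1 w I ∩ A1 w I' with hA'
  set P : ℤ → Finset ℤ := fun w => ((A' w).image (f w I)).image fun x => x - b w I with hP
  set P' : ℤ → Finset ℤ := fun w => ((A' w).image (f w I')).image fun x => x - b w I' with hP'
  have inj : ∀ c : ℤ, Function.Injective fun x : ℤ => x - c := fun c x y hxy => by simpa using hxy
  set g : ℝ := α ^ 2 / 360 * a0 with hg
  have hgpos : 0 < g := by rw [hg]; positivity
  have f2 : ∀ w ∈ W1, P w ⊆ V3 (V I) (muB α a0) ∧ P' w ⊆ V3 (V I') (muB α a0) ∧ g ≤ ((P w).card : ℝ) ∧ g ≤ ((P' w).card : ℝ) := by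
    intro w hw1
    obtain ⟨u1, u2, u3, u4, u5⟩ := f1 w hw1
    obtain ⟨w1, w2, w3, w4⟩ := hw w u1
    obtain ⟨a1, a2, a3, a4⟩ := hAb w I u1 u2
    obtain ⟨b1, b2, b3, b4⟩ := hAb w I' u1 u3
    have q : g ≤ ((A' w).card : ℝ) / 5 := by
      have : α ^ 2 / 72 * a0 ≤ α ^ 2 / 72 * ((A w).card : ℝ) := mul_le_mul_of_nonneg_left w1 (by positivity)
      have e : g = α ^ 2 / 72 * a0 / 5 := by rw [hg]; ring
      rw [e]
      apply div_le_div_of_nonneg_right _ (by norm_num)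
      exact le_trans this u4
    refine ⟨?_, ?_, ?_, ?_⟩
    · intro y hy
      rw [hP, Finset.mem_image] at hy
      obtain ⟨x, hx, rfl⟩ := hy
      rw [Finset.mem_image] at hx
      obtain ⟨a, ha, rfl⟩ := hx
      exact a3 a (Finset.mem_inter.1 ha).1
    · intro y hy
      rw [hP', Finset.mem_image] at hy
      obtain ⟨x, hx, rfl⟩ := hy
      rw [Finset.mem_image] at hx
      obtain ⟨a, ha, rfl⟩ := hx
      exact b3 a (Finset.mem_inter.1 ha).2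
    · rw [hP, Finset.card_image_of_injective _ (inj _)]
      exact le_trans q (BOU_five (A w) (f w I) (w4 I u2).2.2.1 _ (Finset.inter_subset_left.trans a1))
    · rw [hP', Finset.card_image_of_injective _ (inj _)]
      exact le_trans q (BOU_five (A w) (f w I') (w4 I' u3).2.2.1 _ (Finset.inter_subset_left.trans a1))
  set Z : ℤ → Finset (ℤ × ℤ) := fun w => P w ×ˢ P' w with hZ
  set U : Finset (ℤ × ℤ) := V3 (V I) (muB α a0) ×ˢ V3 (V I') (muB α a0) with hU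
  have vI := cv I hIS
  have vI' := cv I' hIS'
  obtain ⟨wa, hwa⟩ := hW1ne
  have hVI : g ≤ ((V3 (V I) (muB α a0)).card : ℝ) := le_trans (f2 wa hwa).2.2.1 (by exact_mod_cast Finset.card_le_card (f2 wa hwa).1)
  have hVI' : g ≤ ((V3 (V I') (muB α a0)).card : ℝ) := le_trans (f2 wa hwa).2.2.2 (by exact_mod_cast Finset.card_le_card (f2 wa hwa).2.1)
  have hvpos : 0 < vB α a0 Vb := lt_of_lt_of_le hgpos (le_trans hVI vI)
  have hgB : gB α a0 Vb = g ^ 2 / vB α a0 Vb ^ 2 := rfl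
  have hgB0 : 0 < gB α a0 Vb := by rw [hgB]; positivity
  have hgB1 : gB α a0 Vb ≤ 1 := by
    rw [hgB, div_le_one (by positivity)]
    exact pow_le_pow_left₀ hgpos.le (le_trans hVI vI) 2
  have cZ : ∀ w ∈ W1, Z w ⊆ U ∧ gB α a0 Vb * (U.card : ℝ) ≤ ((Z w).card : ℝ) := by
    intro w hw1
    obtain ⟨p1, p2, p3, p4⟩ := f2 w hw1
    refine ⟨Finset.product_subset_product p1 p2, ?_⟩
    rw [hZ, hU]
    simp only [Finset.card_product, Nat.cast_mul]
    have q1 : gB α a0 Vb * (((V3 (V I) (muB α a0)).card : ℝ) * ((V3 (V I') (muB α a0)).card : ℝ)) ≤ gB α a0 Vb * (vB α a0 Vb * vB α a0 Vb) :=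
      mul_le_mul_of_nonneg_left (mul_le_mul vI vI' (Nat.cast_nonneg _) hvpos.le) hgB0.le
    have q2 : gB α a0 Vb * (vB α a0 Vb * vB α a0 Vb) = g * g := by
      rw [hgB]; field_simp
    have q3 : g * g ≤ ((P w).card : ℝ) * ((P' w).card : ℝ) := mul_le_mul p3 p4 hgpos.le (Nat.cast_nonneg _)
    linarith
  obtain ⟨w0, hw0, hw0c⟩ := h5 (gB α a0 Vb) W1 U Z hgB0.le hgB1 ⟨wa, hwa⟩ cZ
  set W2 := W1.filter fun w => gB α a0 Vb ^ 2 / 2 * (U.card : ℝ) ≤ ((Z w ∩ Z w0).card : ℝ) with hW2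
  have hW2W1 : W2 ⊆ W1 := Finset.filter_subset _ _
  have hW1W : W1 ⊆ W := Finset.filter_subset _ _
  refine ⟨I, hIS, I', hIS', (f1 wa hwa).2.2.2.2, w0, hW1W hw0, W2, hW2W1.trans hW1W, ?_, A', ?_, ?_⟩
  · have : gB α a0 Vb ^ 2 / 2 * (α ^ 2 * θ ^ 2 / 144 * (W.card : ℝ)) ≤ gB α a0 Vb ^ 2 / 2 * (W1.card : ℝ) := mul_le_mul_of_nonneg_left hz (by positivity)
    have e : α ^ 2 * θ ^ 2 / 144 * (gB α a0 Vb ^ 2 / 2) * (W.card : ℝ) = gB α a0 Vb ^ 2 / 2 * (α ^ 2 * θ ^ 2 / 144 * (W.card : ℝ)) := by ring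
    rw [e]
    exact le_trans this hw0c
  · intro w hwi
    have hw1 : w ∈ W1 := by
      rw [Finset.mem_insert] at hwi
      rcases hwi with rfl | h
      · exact hw0
      · exact hW2W1 h
    obtain ⟨u1, u2, u3, u4, u5⟩ := f1 w hw1
    exact ⟨u2, u3, Finset.inter_subset_left.trans (hAb w I u1 u2).1, u4⟩
  · intro w hw2
    have hw1 : w ∈ W1 := hW2W1 hw2
    obtain ⟨u1, u2, u3, u4, u5⟩ := f1 w hw1
    obtain ⟨v1, v2, v3, v4, v5⟩ := f1 w0 hw0
    obtain ⟨p1, p2, p3, p4⟩ := f2 w hw1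
    rw [hW2, Finset.mem_filter] at hw2
    have key := hw2.2
    rw [hZ, hU] at key
    simp only [Finset.product_inter_product, Finset.card_product, Nat.cast_mul] at key
    have hVp : 0 < ((V3 (V I) (muB α a0)).card : ℝ) := lt_of_lt_of_le hgpos hVI
    have hVp' : 0 < ((V3 (V I') (muB α a0)).card : ℝ) := lt_of_lt_of_le hgpos hVI'
    have i1 : ((P w ∩ P w0).card : ℝ) ≤ ((V3 (V I) (muB α a0)).card : ℝ) := by
      exact_mod_cast Finset.card_le_card (Finset.inter_subset_left.trans p1)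
    have i2 : ((P' w ∩ P' w0).card : ℝ) ≤ ((V3 (V I') (muB α a0)).card : ℝ) := by
      exact_mod_cast Finset.card_le_card (Finset.inter_subset_left.trans p2)
    have hc : 0 < gB α a0 Vb ^ 2 / 2 * g := by positivity
    have j1 : gB α a0 Vb ^ 2 / 2 * g ≤ ((P w ∩ P w0).card : ℝ) := by
      have a : gB α a0 Vb ^ 2 / 2 * (((V3 (V I) (muB α a0)).card : ℝ)) * ((V3 (V I') (muB α a0)).card : ℝ) ≤ ((P w ∩ P w0).card : ℝ) * ((V3 (V I') (muB α a0)).card : ℝ) := by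
        have := mul_le_mul_of_nonneg_left i2 (Nat.cast_nonneg (α := ℝ) (P w ∩ P w0).card)
        linarith
      have a2 := le_of_mul_le_mul_right a hVp'
      have a3 : gB α a0 Vb ^ 2 / 2 * g ≤ gB α a0 Vb ^ 2 / 2 * (((V3 (V I) (muB α a0)).card : ℝ)) := mul_le_mul_of_nonneg_left hVI (by positivity)
      exact le_trans a3 a2
    have j2 : gB α a0 Vb ^ 2 / 2 * g ≤ ((P' w ∩ P' w0).card : ℝ) := by
      have a : gB α a0 Vb ^ 2 / 2 * (((V3 (V I') (muB α a0)).card : ℝ)) * ((V3 (V I) (muB α a0)).card : ℝ) ≤ ((P' w ∩ P' w0).card : ℝ) * ((V3 (V I) (muB α a0)).card : ℝ) := by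
        have := mul_le_mul_of_nonneg_right i1 (Nat.cast_nonneg (α := ℝ) (P' w ∩ P' w0).card)
        linarith
      have a2 := le_of_mul_le_mul_right a hVp
      have a3 : gB α a0 Vb ^ 2 / 2 * g ≤ gB α a0 Vb ^ 2 / 2 * (((V3 (V I') (muB α a0)).card : ℝ)) := mul_le_mul_of_nonneg_left hVI' (by positivity)
      exact le_trans a3 a2
    have hk : kB α a0 Vb = dB α a0 Vb ^ 2 / (gB α a0 Vb ^ 2 / 2 * g) := rfl
    rw [hk]
    have m1 : ∀ w J, w ∈ W → J ∈ B w → (((((A1 w J).image (f w J)).image fun x => x - b w J) - (((A1 w J).image (f w J)).image fun x => x - b w J)).card : ℝ) ≤ dB α a0 Vb := by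
      intro w J hwW hJ
      rw [BOU_tr]
      exact (hAb w J hwW hJ).2.2.2
    constructor
    · have := BOU_rz hc (P := P w) (Q := P w0) (Finset.image_subset_image (Finset.image_subset_image Finset.inter_subset_left)) (Finset.image_subset_image (Finset.image_subset_image Finset.inter_subset_left))
        (m1 w I u1 u2) (m1 w0 I v1 v2) j1
      rwa [hP, BOU_tr] at this
    · have := BOU_rz hc (P := P' w) (Q := P' w0) (Finset.image_subset_image (Finset.image_subset_image Finset.inter_subset_right)) (Finset.image_subset_image (Finset.image_subset_image Finset.inter_subset_right))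
        (m1 w I' u1 u3) (m1 w0 I' v1 v3) j2
      rwa [hP', BOU_tr] at this

end Pool.Agent.HH
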