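import Pool.Agent.helper17.HH.SpecR

set_option autoImplicit false

open scoped Pointwise

namespace Pool.Agent.HH

/-- Row RRU: the Ruzsa triangle inequality for cells. -/
theorem RRU_proof (h : RCV_stmt) : RRU_stmt := by
  intro d A B C
  have h1 := h.s1 d A C
  have h2 := h.s2 d A B
  have h3 := h.s2 d B C
  have h4 := Finset.ruzsa_triangle_inequality_sub_sub_sub (cel d A) (cel d B) (cel d C)
  have h5 : cov d B = (cel d B).card := rfl
  have h6 : (cel d C - cel d B).card = (cel d B - cel d C).card := by
    rw [← neg_sub, Finset.card_neg]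
  rw [h6] at h4
  calc cov d (A - C) * cov d B ≤ (2 * (cel d A - cel d C).card) * (cel d B).card := by
        rw [h5]; exact Nat.mul_le_mul_right _ h1
    _ = 2 * ((cel d A - cel d C).card * (cel d B).card) := by ring
    _ ≤ 2 * ((cel d A - cel d B).card * (cel d B - cel d C).card) := Nat.mul_le_mul_left _ h4
    _ ≤ 2 * ((2 * cov d (A - B)) * (2 * cov d (B - C))) :=
        Nat.mul_le_mul_left _ (Nat.mul_le_mul h2 h3)
    _ = 8 * (cov d (A - B) * cov d (B - C)) := by ring

end Pool.Agent.HH
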